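import Pool.Agent.X151.QG.Wheel

/-!
A compact metric graph with a bridge whose hot-spot set for the standard Laplacian is infinite:
the wheel with four spokes and all edges of length one, with a bridge of length `1/4` from the
hub to a loop of length `1/4`.
-/

namespace Pool.Agent.Results.MP_159dfd_an.BridgedWheel

open Set Pool.Agent.X151.QG

/-- The edge `e` is a bridge: without it, some two vertices are no longer connected. -/
def IsBridge (Γ : MetricGraph) (e : Γ.E) : Prop :=
  ∃ v w : Γ.V, ¬ Relation.ReflTransGen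
    (fun a b => ∃ e', e' ≠ e ∧ ((Γ.src e' = a ∧ Γ.tgt e' = b) ∨ (Γ.src e' = b ∧ Γ.tgt e' = a))) v w

/-- The end `0` of the edges: `inl true` is the bridge, `inl false` the loop. -/
def bsrc : Bool ⊕ (Fin 4 ⊕ Fin 4) → Option (Option (Fin 4))
  | Sum.inl true => some none
  | Sum.inl false => none
  | Sum.inr e => some (wsrc e)

/-- The end `len` of the edges. -/
def btgt : Bool ⊕ (Fin 4 ⊕ Fin 4) → Option (Option (Fin 4))
  | Sum.inl _ => none
  | Sum.inr e => some (wtgt e)

/-- The lengths of the edges. -/
noncomputable def blen : Bool ⊕ (Fin 4 ⊕ Fin 4) → ℝ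
  | Sum.inl _ => 1 / 4
  | Sum.inr _ => 1

/-- The graph: `some none` is the hub of the wheel, `some (some j)` are its rim vertices and
`none` is the vertex at which the loop is attached. -/
noncomputable abbrev bwheel : MetricGraph where
  V := Option (Option (Fin 4))
  E := Bool ⊕ (Fin 4 ⊕ Fin 4)
  src := bsrc
  tgt := btgt
  len := blen
  len_pos := by
    intro e
    rcases e with e | e
    · show (0 : ℝ) < 1 / 4
      norm_num
    · exact one_pos
  nonempty := ⟨Sum.inl true⟩
  conn := by
    have h1 : ∀ v : Option (Option (Fin 4)), Relation.ReflTransGen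
      (fun a b => ∃ e : Bool ⊕ (Fin 4 ⊕ Fin 4),
      (bsrc e = a ∧ btgt e = b) ∨ (bsrc e = b ∧ btgt e = a)) v (some none) := by
      intro v
      rcases v with _ | _ | j
      · exact Relation.ReflTransGen.single ⟨Sum.inl true, Or.inr ⟨rfl, rfl⟩⟩
      · exact Relation.ReflTransGen.refl
      · exact Relation.ReflTransGen.single ⟨Sum.inr (Sum.inl j), Or.inl ⟨rfl, rfl⟩⟩
    have h2 : ∀ v : Option (Option (Fin 4)), Relation.ReflTransGen
      (fun a b => ∃ e : Bool ⊕ (Fin 4 ⊕ Fin 4),
      (bsrc e = a ∧ btgt e = b) ∨ (bsrc e = b ∧ btgt e = a)) (some none) v := by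
      intro v
      rcases v with _ | _ | j
      · exact Relation.ReflTransGen.single ⟨Sum.inl true, Or.inl ⟨rfl, rfl⟩⟩
      · exact Relation.ReflTransGen.refl
      · exact Relation.ReflTransGen.single ⟨Sum.inr (Sum.inl j), Or.inr ⟨rfl, rfl⟩⟩
    intro v w
    exact (h1 v).trans (h2 w)

theorem bridge : IsBridge bwheel (Sum.inl true) := by
  refine ⟨none, some none, fun h => ?_⟩
  have key : ∀ w : Option (Option (Fin 4)), Relation.ReflTransGen
      (fun a b : Option (Option (Fin 4)) => ∃ e' : Bool ⊕ (Fin 4 ⊕ Fin 4), e' ≠ Sum.inl true ∧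
        ((bsrc e' = a ∧ btgt e' = b) ∨ (bsrc e' = b ∧ btgt e' = a))) none w → w = none := by
    intro w hw
    induction hw with
    | refl => rfl
    | tail _ hab ih =>
      subst ih
      obtain ⟨e, hne, ⟨h1, h2⟩ | ⟨h1, h2⟩⟩ := hab
      · rcases e with e | e
        · rcases e
          · exact h2.symm
          · exact absurd rfl hne
        · simp [bsrc] at h1
      · rcases e with e | e
        · rcases e
          · exact h1.symm
          · exact absurd rfl hne
        · simp [btgt] at h2
  have := key _ h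
  simp at this

theorem bsin {k : ℝ} (h0 : 0 < k) (h1 : k ≤ Real.pi / 2) (e : bwheel.E) :
    Real.sin (k * bwheel.len e) ≠ 0 := by
  have hp := Real.pi_pos
  rcases e with e | e
  · have : bwheel.len (Sum.inl e) = 1 / 4 := rfl
    rw [this]
    exact (Real.sin_pos_of_pos_of_lt_pi (by positivity) (by linarith)).ne'
  · have : bwheel.len (Sum.inr e) = 1 := rfl
    rw [this, mul_one]
    exact (Real.sin_pos_of_pos_of_lt_pi h0 (by linarith)).ne'

theorem disc_loop {k : ℝ} (u : Option (Option (Fin 4)) → ℝ) :
    Disc bwheel (fun _ => 0) k u none ↔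
      (u (some none) - Real.cos (k * (1 / 4)) * u none) / Real.sin (k * (1 / 4)) +
        2 * ((u none - Real.cos (k * (1 / 4)) * u none) / Real.sin (k * (1 / 4))) = 0 := by
  have : Disc bwheel (fun _ => 0) k u none ↔
    (∑ e : Bool ⊕ (Fin 4 ⊕ Fin 4), if bsrc e = none then
      (u (btgt e) - Real.cos (k * blen e) * u none) / Real.sin (k * blen e) else 0) +
    (∑ e : Bool ⊕ (Fin 4 ⊕ Fin 4), if btgt e = none then
      (u (bsrc e) - Real.cos (k * blen e) * u none) / Real.sin (k * blen e) else 0) =
      0 * u none / k :=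
    letI : DecidableEq bwheel.V := inferInstanceAs (DecidableEq (Option (Option (Fin 4))))
    disc_iff (Γ := bwheel) _ k u none
  rw [this]
  simp only [Fintype.sum_sum_type, Fintype.sum_bool, Fin.sum_univ_four, bsrc, btgt, blen,
    reduceCtorEq, if_false, if_true, add_zero, zero_add, zero_mul, zero_div]
  constructor <;> intro h <;> linarith

theorem disc_hub {k : ℝ} (hs : Real.sin k ≠ 0) (u : Option (Option (Fin 4)) → ℝ) :
    Disc bwheel (fun _ => 0) k u (some none) ↔
      u (some (some 0)) + u (some (some 1)) + u (some (some 2)) + u (some (some 3)) -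
            4 * Real.cos k * u (some none) +
        Real.sin k * ((u none - Real.cos (k * (1 / 4)) * u (some none)) /
          Real.sin (k * (1 / 4))) = 0 := by
  have : Disc bwheel (fun _ => 0) k u (some none) ↔
    (∑ e : Bool ⊕ (Fin 4 ⊕ Fin 4), if bsrc e = some none then
      (u (btgt e) - Real.cos (k * blen e) * u (some none)) / Real.sin (k * blen e) else 0) +
    (∑ e : Bool ⊕ (Fin 4 ⊕ Fin 4), if btgt e = some none then
      (u (bsrc e) - Real.cos (k * blen e) * u (some none)) / Real.sin (k * blen e) else 0) =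
      0 * u (some none) / k :=
    letI : DecidableEq bwheel.V := inferInstanceAs (DecidableEq (Option (Option (Fin 4))))
    disc_iff (Γ := bwheel) _ k u (some none)
  rw [this]
  simp only [Fintype.sum_sum_type, Fintype.sum_bool, Fin.sum_univ_four, bsrc, btgt, blen, wsrc,
    wtgt, Option.some.injEq,
    reduceCtorEq, if_false, if_true, add_zero, zero_add, zero_mul, zero_div, mul_one]
  rw [← add_div, ← add_div, ← add_div]
  set X := (u none - Real.cos (k * (1 / 4)) * u (some none)) / Real.sin (k * (1 / 4))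
  have e : ∀ Y : ℝ, X + Y / Real.sin k = (Y + Real.sin k * X) / Real.sin k := by
    intro Y; field_simp; ring
  rw [e, div_eq_zero_iff, or_iff_left hs]
  constructor <;> intro h <;> linarith

theorem disc_rim {k : ℝ} (hs : Real.sin k ≠ 0) (u : Option (Option (Fin 4)) → ℝ) (j : Fin 4) :
    Disc bwheel (fun _ => 0) k u (some (some j)) ↔
      u (some none) + u (some (some (j + 1))) + u (some (some (j + 3))) -
        3 * Real.cos k * u (some (some j)) = 0 := by
  have : Disc bwheel (fun _ => 0) k u (some (some j)) ↔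
    (∑ e : Bool ⊕ (Fin 4 ⊕ Fin 4), if bsrc e = some (some j) then
      (u (btgt e) - Real.cos (k * blen e) * u (some (some j))) / Real.sin (k * blen e) else 0) +
    (∑ e : Bool ⊕ (Fin 4 ⊕ Fin 4), if btgt e = some (some j) then
      (u (bsrc e) - Real.cos (k * blen e) * u (some (some j))) / Real.sin (k * blen e) else 0) =
      0 * u (some (some j)) / k :=
    letI : DecidableEq bwheel.V := inferInstanceAs (DecidableEq (Option (Option (Fin 4))))
    disc_iff (Γ := bwheel) _ k u (some (some j))
  rw [this]
  have hj' : ∀ i j : Fin 4, i + 1 = j ↔ i = j + 3 := by decide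
  have hj : ∀ i : Fin 4, i + 1 = j ↔ i = j + 3 := fun i => hj' i j
  simp only [Fintype.sum_sum_type, Fintype.sum_bool, bsrc, btgt, blen, wsrc, wtgt, hj,
    Option.some.injEq, reduceCtorEq, if_false, Finset.sum_ite_eq', Finset.mem_univ, if_true,
    Finset.sum_const_zero, add_zero, zero_add, zero_mul, zero_div, mul_one]
  rw [← add_div, ← add_div, div_eq_zero_iff, or_iff_left hs]
  constructor <;> intro h <;> linarith

theorem no_low {k : ℝ} (h0 : 0 < k) (h1 : k < Real.pi / 2) (f : bwheel.Pt → ℝ)
    (hf : bwheel.IsEigen (fun _ => 0) (k ^ 2) f) : False := by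
  have hp := Real.pi_pos
  have hp4 := Real.pi_le_four
  have hp3 : Real.pi < 3.15 := Real.pi_lt_d2
  obtain ⟨-, ⟨v, hv⟩, g3⟩ := disc_of_eigen h0.ne' (bsin h0 h1.le) hf
  set u : Option (Option (Fin 4)) → ℝ := fun v => f (bwheel.vtx v) with hu
  have hc : 0 < Real.cos k := Real.cos_pos_of_mem_Ioo ⟨by linarith, h1⟩
  have hs : 0 < Real.sin k := Real.sin_pos_of_pos_of_lt_pi h0 (by linarith)
  have hs1 : Real.sin k ≤ 1 := Real.sin_le_one k
  have hc1 : Real.cos k < 1 := by nlinarith [Real.sin_sq_add_cos_sq k]
  have l0 := (disc_loop _).1 (g3 none)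
  have l1 := (disc_hub hs.ne' _).1 (g3 (some none))
  have r0 := (disc_rim hs.ne' _ 0).1 (g3 (some (some 0)))
  have r1 := (disc_rim hs.ne' _ 1).1 (g3 (some (some 1)))
  have r2 := (disc_rim hs.ne' _ 2).1 (g3 (some (some 2)))
  have r3 := (disc_rim hs.ne' _ 3).1 (g3 (some (some 3)))
  have n1 : (0 : Fin 4) + 1 = 1 := rfl
  have n2 : (0 : Fin 4) + 3 = 3 := rfl
  have n3 : (1 : Fin 4) + 1 = 2 := rfl
  have n4 : (1 : Fin 4) + 3 = 0 := rfl
  have n5 : (2 : Fin 4) + 1 = 3 := rfl
  have n6 : (2 : Fin 4) + 3 = 1 := rfl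
  have n7 : (3 : Fin 4) + 1 = 0 := rfl
  have n8 : (3 : Fin 4) + 3 = 2 := rfl
  rw [n1, n2] at r0
  rw [n3, n4] at r1
  rw [n5, n6] at r2
  rw [n7, n8] at r3
  -- the loop vertex
  have hθ0 : 0 < k * (1 / 4) := by positivity
  have hθ1 : k * (1 / 4) < 2 / 5 := by linarith
  have hS : 0 < Real.sin (k * (1 / 4)) := Real.sin_pos_of_pos_of_lt_pi hθ0 (by linarith)
  have hS1 : Real.sin (k * (1 / 4)) < 2 / 5 := lt_trans (Real.sin_lt hθ0) hθ1
  have hC : 23 / 25 < Real.cos (k * (1 / 4)) := by
    have := Real.one_sub_sq_div_two_le_cos (x := k * (1 / 4))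
    nlinarith
  have hC1 : Real.cos (k * (1 / 4)) ≤ 1 := Real.cos_le_one _
  have hCS := Real.sin_sq_add_cos_sq (k * (1 / 4))
  set C := Real.cos (k * (1 / 4))
  set S := Real.sin (k * (1 / 4))
  set c := Real.cos k
  set s := Real.sin k
  have hw : u (some none) = (3 * C - 2) * u none := by
    have : (u (some none) - C * u none) + 2 * (u none - C * u none) = 0 := by
      have e : (u (some none) - C * u none) / S + 2 * ((u none - C * u none) / S) =
        ((u (some none) - C * u none) + 2 * (u none - C * u none)) / S := by ring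
      rw [e, div_eq_zero_iff, or_iff_left hS.ne'] at l0
      exact l0
    linarith
  -- the contribution `D` of the pendant part at the hub
  obtain ⟨D, hD0, hD1, hD⟩ : ∃ D : ℝ, 0 ≤ D ∧ D < 2 ∧
      (u none - C * u (some none)) / S = D * u (some none) := by
    have h32 : 0 < 3 * C - 2 := by linarith
    refine ⟨(1 - C) * (1 + 3 * C) / ((3 * C - 2) * S), ?_, ?_, ?_⟩
    · apply div_nonneg
      · apply mul_nonneg <;> linarith
      · positivity
    · rw [div_lt_iff₀ (by positivity)]
      have h4 : (1 - C) * (1 + C) = S * S := by linear_combination (-1) * hCS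
      have h5 : (1 - C) * (1 + 3 * C) ≤ 2 * (S * S) := by
        have : 0 ≤ (1 - C) * (1 - C) := mul_self_nonneg _
        linarith
      have h6 : S * S < (3 * C - 2) * S := mul_lt_mul_of_pos_right (by linarith) hS
      linarith
    · rw [hw]
      have h34 := hS.ne'
      obtain ⟨Q, hQ⟩ : ∃ Q, Q = 3 * C - 2 := ⟨_, rfl⟩
      have h33 : Q ≠ 0 := by rw [hQ]; exact h32.ne'
      have hCQ : 1 - C * Q = (1 - C) * (1 + 3 * C) := by rw [hQ]; ring
      rw [← hQ, ← hCQ]
      field_simp
  rw [hD] at l1
  -- reduce to the hub equation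
  set T := u (some (some 0)) + u (some (some 1)) + u (some (some 2)) + u (some (some 3)) with hT
  have hsum : 4 * u (some none) = (3 * c - 2) * T := by rw [hT]; linarith
  have hTh : T = (4 * c - s * D) * u (some none) := by linarith
  have hh : u (some none) = 0 := by
    by_contra hne
    have h6 : u (some none) * ((3 * c - 2) * (4 * c - s * D)) = u (some none) * 4 := by
      rw [hTh] at hsum
      linarith
    have h7 := mul_left_cancel₀ hne h6
    have hsD : 0 ≤ s * D := by positivity
    have hsD2 : s * D ≤ 1 * D := mul_le_mul_of_nonneg_right hs1 hD0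
    rcases le_total (3 * c) 2 with h | h
    · -- `(2 - 3c) (s D - 4c) < 4`
      have a1 : (2 - 3 * c) * (s * D) ≤ 2 * (s * D) :=
        mul_le_mul_of_nonneg_right (by linarith) hsD
      have a2 : 0 ≤ (2 - 3 * c) * (4 * c) := mul_nonneg (by linarith) (by linarith)
      have a3 : (3 * c - 2) * (4 * c - s * D) = (2 - 3 * c) * (s * D) - (2 - 3 * c) * (4 * c) := by
        ring
      linarith
    · have a1 : 0 ≤ (3 * c - 2) * (s * D) := mul_nonneg (by linarith) hsD
      have a2 : (3 * c - 2) * (4 * c) < 1 * 4 :=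
        mul_lt_mul'' (by linarith) (by linarith) (by linarith) (by linarith)
      have a3 : (3 * c - 2) * (4 * c - s * D) = (3 * c - 2) * (4 * c) - (3 * c - 2) * (s * D) := by
        ring
      linarith
  have hwz : u none = 0 := by
    rw [hh] at hw
    rcases mul_eq_zero.1 hw.symm with h | h
    · linarith
    · exact h
  rw [hh] at hTh r0 r1 r2 r3
  have h02 : u (some (some 0)) = u (some (some 2)) := by
    have : 3 * c * (u (some (some 0)) - u (some (some 2))) = 0 := by linarith
    rcases mul_eq_zero.1 this with h | h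
    · linarith
    · linarith
  have h13 : u (some (some 1)) = u (some (some 3)) := by
    have : 3 * c * (u (some (some 1)) - u (some (some 3))) = 0 := by linarith
    rcases mul_eq_zero.1 this with h | h
    · linarith
    · linarith
  have h01 : u (some (some 0)) + u (some (some 1)) = 0 := by
    rw [hT] at hTh
    linarith
  have h00 : (2 + 3 * c) * u (some (some 0)) = 0 := by
    rw [← h13] at r0
    linear_combination 2 * h01 - r0
  have h0z : u (some (some 0)) = 0 := by
    rcases mul_eq_zero.1 h00 with h | h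
    · linarith
    · exact h
  apply hv
  rcases v with _ | _ | j
  · exact hwz
  · exact hh
  · fin_cases j
    · exact h0z
    · show u (some (some 1)) = 0
      linarith
    · show u (some (some 2)) = 0
      linarith
    · show u (some (some 3)) = 0
      linarith

/-- The rotating family of vertex values. -/
noncomputable def brot (θ : ℝ) : Option (Option (Fin 4)) → ℝ
  | none => 0
  | some v => rot θ v

theorem brot_eigen (θ : ℝ) :
    bwheel.IsEigen (fun _ => 0) ((Real.pi / 2) ^ 2) (lift bwheel (Real.pi / 2) (brot θ)) := by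
  have hp := Real.pi_pos
  apply eigen_of_disc _ (by positivity) (bsin (by positivity) le_rfl)
  · by_cases h : Real.cos θ = 0
    · refine ⟨some (some 1), ?_⟩
      intro h'
      have h'' : Real.sin θ = 0 := h'
      have := Real.sin_sq_add_cos_sq θ
      rw [h, h''] at this
      norm_num at this
    · exact ⟨some (some 0), h⟩
  · have hs : Real.sin (Real.pi / 2) ≠ 0 := by rw [Real.sin_pi_div_two]; exact one_ne_zero
    intro v
    rcases v with _ | _ | j
    · apply (disc_loop _).2
      simp [brot, rot]
    · apply (disc_hub hs _).2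
      simp [brot, rot, Real.cos_pi_div_two]
    · apply (disc_rim hs _ j).2
      rw [Real.cos_pi_div_two]
      fin_cases j <;> simp [brot, rot]

theorem brot_le (θ : ℝ) (q : bwheel.Pt) : lift bwheel (Real.pi / 2) (brot θ) q ≤ 1 := by
  have hp := Real.pi_pos
  have hcs := Real.sin_sq_add_cos_sq θ
  rcases pt_cases q with ⟨v, rfl⟩ | ⟨e, x, hx0, hx1, rfl⟩
  · rw [lift_vtx]
    rcases v with _ | v
    · exact zero_le_one
    · exact rot_le θ (wheel.vtx v)
  · rcases e with e | e
    · rw [lift_pt _ _ (Sum.inl e) (bsin (by positivity) le_rfl _) ⟨hx0.le, hx1.le⟩]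
      have e1 : brot θ (bsrc (Sum.inl e)) = 0 := by rcases e <;> rfl
      have e2 : brot θ (btgt (Sum.inl e)) = 0 := by rcases e <;> rfl
      rw [e1, e2]
      simp
    · have h := rot_le θ (wheel.pt e x)
      rw [lift_pt _ _ (Sum.inr e) (bsin (by positivity) le_rfl _) ⟨hx0.le, hx1.le⟩]
      rw [lift_pt _ _ e (wheel_sin (by positivity) le_rfl _) ⟨hx0.le, hx1.le⟩] at h
      exact h

theorem brot_at {x : ℝ} (h0 : 0 < x) (h1 : x < 1) :
    lift bwheel (Real.pi / 2) (brot (Real.pi / 2 * x)) (bwheel.pt (Sum.inr (Sum.inr 0)) x) = 1 := by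
  have hp := Real.pi_pos
  have h := rot_at h0 h1
  rw [lift_pt _ _ (Sum.inr (Sum.inr 0)) (bsin (by positivity) le_rfl _)
    ⟨h0.le, show x ≤ bwheel.len (Sum.inr (Sum.inr 0)) from h1.le⟩]
  rw [lift_pt _ _ (Sum.inr 0) (wheel_sin (by positivity) le_rfl _)
    ⟨h0.le, show x ≤ wheel.len (Sum.inr 0) from h1.le⟩] at h
  exact h

/-- There is a compact metric graph with a bridge for which, with standard vertex conditions, the
set `M` of the points where some second eigenfunction attains its global maximum or minimum is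
infinite. (The witness `bwheel` has cycles on both sides of its bridge.) -/
theorem result : ∃ (Γ : MetricGraph) (e : Γ.E), IsBridge Γ e ∧
    (Γ.M (fun _ => 0)).Infinite := by
  have hp := Real.pi_pos
  have h2 : bwheel.IsSecond (fun _ => 0) ((Real.pi / 2) ^ 2) := by
    apply second_of_std (by positivity)
    · exact ⟨lift bwheel (Real.pi / 2) (brot 0), brot_eigen 0⟩
    · intro k hk0 hk1 f hf
      exact no_low hk0 hk1 f hf
  refine ⟨bwheel, Sum.inl true, bridge, ?_⟩
  have hinj : Set.InjOn (fun x : ℝ => bwheel.pt (Sum.inr (Sum.inr 0)) x) (Ioo 0 1) := by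
    intro x hx y hy hxy
    simp only [] at hxy
    rw [pt_mem (Γ := bwheel) (Sum.inr (Sum.inr 0)) hx.1 hx.2,
      pt_mem (Γ := bwheel) (Sum.inr (Sum.inr 0)) hy.1 hy.2] at hxy
    exact congrArg (fun p : bwheel.Pt => match p with
      | Sum.inl _ => (0 : ℝ)
      | Sum.inr ⟨_, y⟩ => y.1) hxy
  apply Set.infinite_of_injOn_mapsTo hinj _ (Set.Ioo_infinite (by norm_num))
  intro x hx
  refine ⟨_, _, h2, brot_eigen (Real.pi / 2 * x), Or.inl fun q => ?_⟩
  rw [brot_at hx.1 hx.2]
  exact brot_le _ q

end Pool.Agent.Results.MP_159dfd_an.BridgedWheel
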